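import Pool.Agent.Helper77.KZ.Main

/-!
MP_0aa406_nt, Q1, in the digit form of `V_{F,d}`: the bound `V_{F,d} ≤ (l + 1) n / (2 l)` for every
degree which is not a power of two and every characteristic which is large in terms of the degree.
-/

set_option autoImplicit false

namespace Pool.Agent.Results.MP_0aa406_nt.LargeCharacteristic

/-- Let `m ≥ 1` be an integer which is not a power of two and `l` its least odd prime divisor. There
is `P` such that for all primes `p ≥ P`, all `n ≥ 1` divisible by `m` (in particular for `n = m`) and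
all `d` coprime to `p ^ n - 1` which are not a power of `p` modulo `p ^ m - 1`, there are
`0 < a < p ^ n - 1` and `0 ≤ b < p ^ n - 1` with `b ≡ - d a` modulo `p ^ n - 1` whose base-`p` digit
sums add up to at most `((l + 1) / (2 l)) n (p - 1)`. -/
theorem result : ∀ m l : ℕ, 0 < m → l.Prime → l ≠ 2 → l ∣ m →
    (∀ q : ℕ, q.Prime → q ≠ 2 → q ∣ m → l ≤ q) →
    ∃ P : ℕ, ∀ p : ℕ, p.Prime → P ≤ p → ∀ n : ℕ, 0 < n → m ∣ n → ∀ d : ℕ,
      Nat.Coprime d (p ^ n - 1) → (∀ k : ℕ, ¬ d ≡ p ^ k [MOD p ^ m - 1]) →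
      ∃ a b : ℕ, 0 < a ∧ a < p ^ n - 1 ∧ b < p ^ n - 1 ∧ (p ^ n - 1) ∣ d * a + b ∧
        2 * l * ((Nat.digits p a).sum + (Nat.digits p b).sum) ≤ (l + 1) * n * (p - 1) := by
  intro m l hm hl hl2 hlm hmin
  obtain ⟨P, hP⟩ := Pool.Agent.Helper77.KZ.main_bound m hm l hl hl2 hlm hmin
  exact ⟨P, fun p _ hp n hn hmn d hd hnd => hP p hp n hn hmn d hd hnd⟩

end Pool.Agent.Results.MP_0aa406_nt.LargeCharacteristic
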